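import Mathlib

set_option autoImplicit false

/-!
# Finite invertible automata and their groups
-/

namespace Pool.Agent.Q221.AutIso

/-- A finite invertible automaton with `n` states over an alphabet with `k` letters: the
transition map and, for every state, the output permutation. -/
structure Auto (n k : ℕ) where
  nxt : Fin n → Fin k → Fin n
  out : Fin n → Equiv.Perm (Fin k)

namespace Auto

variable {n k : ℕ} (A : Auto n k)

/-- The action of a state on words. -/
def act : Fin n → List (Fin k) → List (Fin k)
  | _, [] => []
  | q, x :: w => A.out q x :: act (A.nxt q x) w

/-- The inverse of the action of a state on words. -/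
def iact : Fin n → List (Fin k) → List (Fin k)
  | _, [] => []
  | q, y :: w => (A.out q).symm y :: iact (A.nxt q ((A.out q).symm y)) w

theorem iact_act (w : List (Fin k)) : ∀ q, A.iact q (A.act q w) = w := by
  induction w with
  | nil => intro q; rfl
  | cons x w ih => intro q; simp [act, iact, ih]

theorem act_iact (w : List (Fin k)) : ∀ q, A.act q (A.iact q w) = w := by
  induction w with
  | nil => intro q; rfl
  | cons x w ih => intro q; simp [act, iact, ih]

/-- The tree automorphism given by a state. -/
def perm (q : Fin n) : Equiv.Perm (List (Fin k)) where
  toFun := A.act q
  invFun := A.iact q
  left_inv w := A.iact_act w q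
  right_inv w := A.act_iact w q

/-- The self-similar group `G(A)` generated by the states of `A`. -/
def group : Subgroup (Equiv.Perm (List (Fin k))) := Subgroup.closure (Set.range A.perm)

/-- The finite tables of an automaton, as the input of an algorithm: the number of states, the
number of letters, and for every state and letter the new state and the output. -/
def code : ℕ × ℕ × List (List (ℕ × ℕ)) :=
  (n, k, List.ofFn fun q => List.ofFn fun x => ((A.nxt q x : ℕ), (A.out q x : ℕ)))

end Auto

end Pool.Agent.Q221.AutIso
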