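import Pool.Agent.Q221.AutIso.Ray
import Pool.Agent.Helper599.Source2

set_option autoImplicit false

/-!
# The two automata
-/

namespace Pool.Agent.Q221.AutIso

open Equiv Pool.Agent.Helper599 Pool.Agent.Helper599.PP Pool.Agent.Helper599.Ray
open Pool.Agent.Helper599.Mod Pool.Agent.Helper599.Core Pool.Agent.Helper599.Asm

variable {Q : Type} [Finite Q] (M : Sys Q Bool) (q0 : Q)

theorem mtN_extra (N : ℕ) : mtN M q0 N (LL M) = dm := by
  unfold mtN
  rw [if_neg (by have := (eN M .g).2; unfold ig; omega)]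
  rw [List.getD_eq_default _ _ (by simp [lst])]

theorem ap_dm (p : ℤ × ℤ) : ap ((1, 0), (0, 1)) p = p := by
  simp [ap]

/-- The data with an extra name of weight one and trivial matrices. -/
noncomputable def DB (N : ℕ) : Data where
  K := KK M q0 N
  L := LL M + 1
  ig := LL M
  i0 := i0 M
  mt := mtN M q0 N
  MM i := if i < LL M then (DA M q0 N).MM i else 1
  hK := (DA M q0 N).hK
  hi0 := (DA M q0 N).hi0.trans (Nat.lt_succ_self _)
  hig := Nat.lt_succ_self _
  hne := (DA M q0 N).hi0.ne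
  mt0 := (DA M q0 N).mt0
  h1 i hi p := by
    split_ifs with h
    · exact (DA M q0 N).h1 i h p
    · have hi : i = LL M := by omega
      subst hi
      rw [mtN_extra]
      exact ap_dm p
  h2 i hi p := by
    split_ifs with h
    · exact (DA M q0 N).h2 i h p
    · have hi : i = LL M := by omega
      subst hi
      rw [mtN_extra]
      exact ap_dm p
  hs i hi := by
    by_cases h : i < LL M
    · exact (DA M q0 N).hs i h
    · have hi : i = LL M := by omega
      subst hi
      rw [mtN_extra]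
      have := (DA M q0 N).hK
      change 2 ≤ KK M q0 N at this
      simp only [dm]
      omega

/-- Two elements with the same description are equal. -/
theorem desc_unique {g h : Perm R} {A : GG} {v : Z4} {e : ZMod 2} (hg : Desc g A v e)
    (hh : Desc h A v e) : g = h := by
  have h1 := hg.mul hh.inv
  have h2 : A * A⁻¹ = 1 := mul_inv_cancel A
  have h3 : ac A (- ac A⁻¹ v) + v = 0 := by
    rw [ac_neg, ← ac_mul, h2, ac_one, neg_add_cancel]
  have h4 : e + e = 0 := CharTwo.add_self_eq_zero _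
  rw [h2, h3, h4] at h1
  exact mul_inv_eq_one.1 h1.eq_one

/-- description of the identity -/
theorem desc_one_eq {A : GG} {v : Z4} {e : ZMod 2} (h : Desc 1 A v e) : A = 1 ∧ v = 0 ∧ e = 0 := by
  obtain ⟨h1, h2⟩ := gen_xi.eq h rfl
  subst h1 h2
  refine ⟨rfl, rfl, ?_⟩
  have h7 := h.flip (fun _ => 16) 0 (fun j hj => by omega) (by simp)
  by_contra h8
  simp [fl, h8] at h7

/-- the flip -/
theorem exists_flip_B (N : ℕ) : ∃ z ∈ Cl (DB M q0 N), Desc z 1 0 1 := by
  have hb := (DB M q0 N).bd_zero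
  have hq : code (DB M q0 N).K (LL M) ((0, 0), (0, 0)) < (DB M q0 N).n :=
    code_lt hb (Nat.lt_succ_self _)
  have hσ := (DB M q0 N).is_sP hq
  refine ⟨_, Subgroup.subset_closure ⟨_, hq, hσ⟩, ?_⟩
  have h3 := (DB M q0 N).desc (i := LL M) (Nat.lt_succ_self _) hb hσ
  have h4 : (DB M q0 N).MM (LL M) = 1 := by
    change (if LL M < LL M then _ else (1 : GG)) = 1
    rw [if_neg (lt_irrefl _)]
  have h5 : (DB M q0 N).wi (LL M) = 1 := by
    unfold Data.wi
    exact if_pos rfl
  rw [h4, h5] at h3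
  exact h3

theorem zmod_aux : ∀ e e' : ZMod 2, e ≠ e' → e' = 1 + e := by decide

theorem mem_of_desc {S : Subgroup (Perm R)} {g h z : Perm R} {A : GG} {v : Z4} {e e' : ZMod 2}
    (hz : z ∈ S) (hz' : Desc z 1 0 1) (hh : h ∈ S) (hd : Desc h A v e) (hg : Desc g A v e') :
    g ∈ S := by
  by_cases h1 : e = e'
  · subst h1
    rw [desc_unique hg hd]
    exact hh
  · have h2 : e' = 1 + e := zmod_aux e e' h1
    have h3 := hz'.mul hd
    rw [one_mul, ac_one, add_zero, ← h2] at h3
    rw [desc_unique hg h3]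
    exact S.mul_mem hz hh

/-- If the machine stops then the groups coincide. -/
theorem cl_eq_of_reach (N : ℕ) (h : Reach M (some q0, fun j => (Source.ini N j : ℤ))) :
    Cl (DA M q0 N) = Cl (DB M q0 N) := by
  -- the flip in the first group
  obtain ⟨zA, hzA, hzA'⟩ : ∃ z ∈ Cl (DA M q0 N), Desc z 1 0 1 := by
    obtain ⟨u, h1, h2, h3⟩ := exists_of_reach M q0 N h
    obtain ⟨g, hg, h4⟩ := exists_elt M q0 N u
    have h5 : Asm.RR M q0 N u = 1 := by
      simp [Asm.RR, h1, h2]
    rw [h5, h3, toAdd_ofAdd] at h4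
    exact ⟨g, hg, h4⟩
  obtain ⟨zB, hzB, hzB'⟩ := exists_flip_B M q0 N
  have hK : (DA M q0 N).K = (DB M q0 N).K := rfl
  have hKpos : 0 < (DA M q0 N).K := by
    have := (DA M q0 N).hK
    omega
  apply le_antisymm
  · unfold Cl
    rw [Subgroup.closure_le]
    rintro σ ⟨q, hq, hσ⟩
    have h1 := code_idx_vec (DA M q0 N).K q
    have h2 : idx (DA M q0 N).K q < LL M := idx_lt hq
    have hv := bd_vec hKpos q
    rw [← h1] at hσ
    have h3 := (DA M q0 N).desc h2 hv hσ
    have hq' : code (DB M q0 N).K (idx (DA M q0 N).K q) (vec (DA M q0 N).K q) < (DB M q0 N).n :=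
      code_lt hv (h2.trans (Nat.lt_succ_self _))
    have hσ' := (DB M q0 N).is_sP hq'
    have h4 := (DB M q0 N).desc (i := idx (DA M q0 N).K q) (h2.trans (Nat.lt_succ_self _)) hv hσ'
    have h5 : (DB M q0 N).MM (idx (DA M q0 N).K q) = (DA M q0 N).MM (idx (DA M q0 N).K q) :=
      if_pos h2
    rw [h5] at h4
    exact mem_of_desc hzB hzB' (Subgroup.subset_closure ⟨_, hq', hσ'⟩) h4 h3
  · unfold Cl
    rw [Subgroup.closure_le]
    rintro σ ⟨q, hq, hσ⟩
    have h1 := code_idx_vec (DB M q0 N).K q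
    have h2 : idx (DB M q0 N).K q < LL M + 1 := idx_lt hq
    have hv : Bd (DA M q0 N).K (vec (DB M q0 N).K q) := bd_vec hKpos q
    rw [← h1] at hσ
    have h3 := (DB M q0 N).desc h2 hv hσ
    by_cases h6 : idx (DB M q0 N).K q < LL M
    · have hq' : code (DA M q0 N).K (idx (DB M q0 N).K q) (vec (DB M q0 N).K q) <
          (DA M q0 N).n := code_lt hv h6
      have hσ' := (DA M q0 N).is_sP hq'
      have h4 := (DA M q0 N).desc (i := idx (DB M q0 N).K q) h6 hv hσ'
      have h5 : (DB M q0 N).MM (idx (DB M q0 N).K q) = (DA M q0 N).MM (idx (DB M q0 N).K q) :=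
        if_pos h6
      rw [h5] at h3
      exact mem_of_desc hzA hzA' (Subgroup.subset_closure ⟨_, hq', hσ'⟩) h4 h3
    · have h7 : (DA M q0 N).i0 < LL M := (DA M q0 N).hi0
      have hq' : code (DA M q0 N).K (DA M q0 N).i0 (vec (DB M q0 N).K q) <
          (DA M q0 N).n := code_lt hv h7
      have hσ' := (DA M q0 N).is_sP hq'
      have h4 := (DA M q0 N).desc (i := (DA M q0 N).i0) h7 hv hσ'
      have h5 : (DB M q0 N).MM (idx (DB M q0 N).K q) = 1 := if_neg h6
      rw [h5] at h3
      rw [MM0] at h4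
      exact mem_of_desc hzA hzA' (Subgroup.subset_closure ⟨_, hq', hσ'⟩) h4 h3

/-- If the machine does not stop then the first group has no elements of order two. -/
theorem no_involution (hab : ∀ q r, M.nxt q r ≠ none → ∀ j, M.b q r j < M.a q r j) (N : ℕ)
    (h : ¬ Reach M (some q0, fun j => (Source.ini N j : ℤ))) {g : Perm R}
    (hg : g ∈ Cl (DA M q0 N)) (h2 : g * g = 1) : g = 1 := by
  obtain ⟨u, v, hd⟩ := exists_desc M q0 N g hg
  have h3 := hd.mul hd
  rw [h2] at h3
  obtain ⟨h4, h5, -⟩ := desc_one_eq h3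
  have e1 : ∀ x : FreeGroup (Gn Q M.B), x * x = 1 → x = 1 := by
    intro x hx
    rw [← pow_two] at hx
    exact (pow_eq_one_iff_left (by norm_num)).1 hx
  have h6 : f1 M q0 N u = 1 := by
    apply e1
    apply rep_injective M
    rw [map_mul, map_one]
    exact congrArg Prod.fst h4
  have h7 : f2 M q0 N u = 1 := by
    apply e1
    apply rep_injective M
    rw [map_mul, map_one]
    exact congrArg Prod.snd h4
  have h8 := wt_eq_one M hab q0 N h u h6 h7
  have h9 : Asm.RR M q0 N u = 1 := by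
    simp [Asm.RR, h6, h7]
  rw [h9, ac_one] at h5
  have h10 : v = 0 := by
    rw [← two_smul ℤ v, smul_eq_zero] at h5
    rcases h5 with h5 | h5
    · exact absurd h5 (by norm_num)
    · exact h5
  rw [h8, h9, h10] at hd
  exact hd.eq_one

/-- The groups are isomorphic iff the machine stops. -/
theorem iso_iff (hab : ∀ q r, M.nxt q r ≠ none → ∀ j, M.b q r j < M.a q r j) (N : ℕ) :
    Nonempty ((au (DA M q0 N)).group ≃* (au (DB M q0 N)).group) ↔
      Reach M (some q0, fun j => (Source.ini N j : ℤ)) := by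
  obtain ⟨eA⟩ := au_group (DA M q0 N)
  obtain ⟨eB⟩ := au_group (DB M q0 N)
  constructor
  · rintro ⟨e⟩
    by_contra h
    obtain ⟨z, hz, hz'⟩ := exists_flip_B M q0 N
    let x : Cl (DA M q0 N) := eA (e.symm (eB.symm ⟨z, hz⟩))
    have h1 : z * z = 1 := by
      have := hz'.mul hz'
      rw [mul_one, ac_one, add_zero] at this
      exact this.eq_one
    have h2 : x * x = 1 := by
      have h3 : (⟨z, hz⟩ : Cl (DB M q0 N)) * ⟨z, hz⟩ = 1 := Subtype.ext h1
      simp only [x]
      rw [← map_mul, ← map_mul, ← map_mul, h3, map_one, map_one, map_one]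
    have h4 : (x : Perm R) = 1 := no_involution M q0 hab N h x.2 (congrArg Subtype.val h2)
    have h5 : x = 1 := Subtype.ext h4
    have h6 : (⟨z, hz⟩ : Cl (DB M q0 N)) = 1 := by
      have h7 := congrArg eA.symm h5
      simp only [x, MulEquiv.symm_apply_apply, map_one] at h7
      have h8 := congrArg e h7
      simp only [MulEquiv.apply_symm_apply, map_one] at h8
      have h9 := congrArg eB h8
      simpa using h9
    have h7 : z = 1 := congrArg Subtype.val h6
    rw [h7] at hz'
    exact absurd (desc_one_eq hz').2.2 (by decide)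
  · intro h
    exact ⟨(eA.trans (MulEquiv.subgroupCongr (cl_eq_of_reach M q0 N h))).trans eB.symm⟩

/-! ### Computability of the second table -/

theorem p_ot' : Primrec (fun p : ℕ × ℕ × ℕ =>
    ot (KK M q0 p.1) (LL M) (mtN M q0 p.1) p.2.1 p.2.2) := by
  have hK : Primrec (fun p : ℕ × ℕ × ℕ => KK M q0 p.1) := (p_KK M q0).comp Primrec.fst
  have hs : Primrec (fun p : ℕ × ℕ × ℕ => p.2.1) := Primrec.fst.comp Primrec.snd
  have hx : Primrec (fun p : ℕ × ℕ × ℕ => p.2.2) := Primrec.snd.comp Primrec.snd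
  have hi := p_idx hK hs
  have hm : Primrec (fun p : ℕ × ℕ × ℕ => mtN M q0 p.1 (idx (KK M q0 p.1) p.2.1)) :=
    (p_mtN M q0).comp (Primrec.pair Primrec.fst hi)
  unfold ot
  refine Primrec.ite (Primrec.nat_lt.comp hx (Primrec.const 16)) ?_ ?_
  · exact p_lt (p_nv hm (p_dg hx) (p_vec hK hs))
  · refine Primrec.ite (Primrec.eq.comp hi (Primrec.const _)) ?_ hx
    exact Primrec.nat_sub.comp (Primrec.const 33) hx

theorem p_n' : Primrec (fun N => (DB M q0 N).n) := by
  have e : ∀ N, (DB M q0 N).n =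
      (LL M + 1) * (KK M q0 N * (KK M q0 N * (KK M q0 N * KK M q0 N))) := by
    intro N
    change (LL M + 1) * KK M q0 N ^ 4 = _
    ring
  refine (p_mul (Primrec.const (LL M + 1)) (p_mul (p_KK M q0) (p_mul (p_KK M q0)
    (p_mul (p_KK M q0) (p_KK M q0))))).of_eq ?_
  intro N
  exact (e N).symm

/-- a row entry -/
noncomputable def ent' (p : (ℕ × ℕ) × ℕ) : ℕ × ℕ :=
  (Ray.nx (KK M q0 p.1.1) (i0 M) (mtN M q0 p.1.1) p.1.2 p.2,
    ot (KK M q0 p.1.1) (LL M) (mtN M q0 p.1.1) p.1.2 p.2)

theorem p_ent' : Primrec (ent' M q0) := by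
  have hp : Primrec (fun p : (ℕ × ℕ) × ℕ => (p.1.1, p.1.2, p.2)) :=
    Primrec.pair (Primrec.fst.comp Primrec.fst) (Primrec.pair (Primrec.snd.comp Primrec.fst)
      Primrec.snd)
  have h1 := (p_nx M q0).comp hp
  have h2 := (p_ot' M q0).comp hp
  simp only at h1 h2
  exact Primrec.pair h1 h2

/-- a row -/
noncomputable def row' (k : ℕ) (p : ℕ × ℕ) : List (ℕ × ℕ) :=
  (List.range k).map (fun x => ent' M q0 (p, x))

theorem p_row' (k : ℕ) : Primrec (row' M q0 k) := by
  have h1 : Primrec₂ (fun (p : ℕ × ℕ) (x : ℕ) => ent' M q0 (p, x)) :=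
    ((p_ent' M q0).comp (Primrec.pair Primrec.fst Primrec.snd)).to₂
  exact Primrec.list_map (Primrec.const _) h1

theorem T_eq' (N : ℕ) : (DB M q0 N).T =
    (List.range (DB M q0 N).n).map (fun s => row' M q0 18 (N, s)) := by
  have e : (DB M q0 N).T = table (KK M q0 N) (LL M + 1) (LL M) (i0 M) (mtN M q0 N) := rfl
  have e2 : (DB M q0 N).n = (LL M + 1) * KK M q0 N ^ 4 := rfl
  rw [e, e2, table]
  rfl

/-- The tables are primitive recursive. -/
theorem p_T' : Primrec (fun N => (DB M q0 N).T) := by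
  refine Primrec.of_eq ?_ (fun N => (T_eq' M q0 N).symm)
  have h1 : Primrec₂ (fun (N : ℕ) (s : ℕ) => row' M q0 18 (N, s)) :=
    ((p_row' M q0 18).comp (Primrec.pair Primrec.fst Primrec.snd)).to₂
  exact Primrec.list_map (Primrec.list_range.comp (p_n' M q0)) h1

/-- The isomorphism problem. -/
theorem undecidable : ¬ ∃ f : (ℕ × ℕ × List (List (ℕ × ℕ))) → (ℕ × ℕ × List (List (ℕ × ℕ))) → Bool,
    Computable₂ f ∧ ∀ (n m : ℕ) (A : Auto n 18) (B : Auto m 18),
      (f A.code B.code = true ↔ Nonempty (A.group ≃* B.group)) := by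
  rintro ⟨f, hf, hcor⟩
  obtain ⟨Q, hQ, M, q0, N, hB, hab, hN, hnc⟩ := Source.exists_sys2
  apply hnc
  have key : ∀ n : ℕ, M.Halts (some q0) (Source.ini (N n)) ↔
      f (au (DA M q0 (N n))).code (au (DB M q0 (N n))).code = true := by
    intro n
    rw [hcor, iso_iff M q0 hab, halts_iff_reach M hB]
  have h1 : Computable (fun n : ℕ => (au (DA M q0 n)).code) := by
    refine ((Primrec.pair (p_n M q0) (Primrec.pair (Primrec.const 18)
        (p_T M q0))).to_comp).of_eq fun n => ?_
    exact (au_code _).symm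
  have h2 : Computable (fun n : ℕ => (au (DB M q0 n)).code) := by
    refine ((Primrec.pair (p_n' M q0) (Primrec.pair (Primrec.const 18)
        (p_T' M q0))).to_comp).of_eq fun n => ?_
    exact (au_code _).symm
  have hc : Computable (fun n => f (au (DA M q0 (N n))).code (au (DB M q0 (N n))).code) :=
    hf.comp (h1.comp hN) (h2.comp hN)
  refine ComputablePred.computable_iff.2 ⟨_, hc, ?_⟩
  funext n
  rw [eq_iff_iff]
  exact key n

end Pool.Agent.Q221.AutIso
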