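import Pool.Agent.Q221.AutIso.Def
import Pool.Agent.Helper599.Prim

set_option autoImplicit false

/-!
# The group on words and the group on rays
-/

namespace Pool.Agent.Q221.AutIso

open Equiv Pool.Agent.Helper599 Pool.Agent.Helper599.Ray Pool.Agent.Helper599.Asm

/-- prefixes of rays -/
def pre (η : R) (m : ℕ) : List (Fin 18) := List.ofFn fun j : Fin m => η j

theorem pre_succ (η : R) (m : ℕ) : pre η (m + 1) = η 0 :: pre (fun j => η (j + 1)) m := by
  simp [pre, List.ofFn_succ]

theorem exists_pre (w : List (Fin 18)) : ∃ η : R, pre η w.length = w := by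
  induction w with
  | nil => exact ⟨fun _ => 0, rfl⟩
  | cons x w ih =>
    obtain ⟨η, h⟩ := ih
    refine ⟨fun j => match j with
      | 0 => x
      | j + 1 => η j, ?_⟩
    rw [List.length_cons, pre_succ]
    simp only [h]

theorem pre_length (η : R) (m : ℕ) : (pre η m).length = m := by simp [pre]

theorem eq_of_pre {η ζ : R} (h : ∀ m, pre η m = pre ζ m) : η = ζ := by
  funext j
  have h1 := h (j + 1)
  unfold pre at h1
  exact congrFun (List.ofFn_injective h1) ⟨j, Nat.lt_succ_self j⟩

/-- compatible pairs -/
def Comp : Subgroup (Perm (List (Fin 18)) × Perm R) where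
  carrier := {p | ∀ η m, p.1 (pre η m) = pre (p.2 η) m}
  one_mem' := fun _ _ => rfl
  mul_mem' := by
    intro p q hp hq η m
    change p.1 (q.1 (pre η m)) = pre (p.2 (q.2 η)) m
    rw [hq, hp]
  inv_mem' := by
    intro p hp η m
    change p.1⁻¹ (pre η m) = pre (p.2⁻¹ η) m
    rw [Perm.inv_eq_iff_eq, hp]
    congr 1
    exact (p.2.apply_symm_apply η).symm

theorem comp_fst {p : Perm (List (Fin 18)) × Perm R} (hp : p ∈ Comp) (h : p.1 = 1) : p = 1 := by
  refine Prod.ext h ?_
  ext η : 1
  refine eq_of_pre fun m => ?_
  have := hp η m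
  rw [h] at this
  exact this.symm

theorem comp_snd {p : Perm (List (Fin 18)) × Perm R} (hp : p ∈ Comp) (h : p.2 = 1) : p = 1 := by
  refine Prod.ext ?_ h
  ext w : 1
  obtain ⟨η, hη⟩ := exists_pre w
  have := hp η w.length
  rw [h, hη] at this
  rw [this]
  exact hη

/-- Closures of compatible families are isomorphic. -/
theorem nonempty_equiv {ι : Type} (a : ι → Perm (List (Fin 18))) (b : ι → Perm R)
    (h : ∀ i, (a i, b i) ∈ Comp) :
    Nonempty (Subgroup.closure (Set.range a) ≃* Subgroup.closure (Set.range b)) := by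
  let P : Subgroup (Perm (List (Fin 18)) × Perm R) := Subgroup.closure (Set.range fun i => (a i, b i))
  have hP : P ≤ Comp := by
    rw [Subgroup.closure_le]
    rintro _ ⟨i, rfl⟩
    exact h i
  let f : P →* Perm (List (Fin 18)) := (MonoidHom.fst _ _).comp P.subtype
  let g : P →* Perm R := (MonoidHom.snd _ _).comp P.subtype
  have hf : Function.Injective f := by
    rw [injective_iff_map_eq_one]
    intro p hp
    exact Subtype.ext (comp_fst (hP p.2) hp)
  have hg : Function.Injective g := by
    rw [injective_iff_map_eq_one]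
    intro p hp
    exact Subtype.ext (comp_snd (hP p.2) hp)
  have rf : f.range = Subgroup.closure (Set.range a) := by
    rw [MonoidHom.range_comp, Subgroup.range_subtype, MonoidHom.map_closure, ← Set.range_comp]
    rfl
  have rg : g.range = Subgroup.closure (Set.range b) := by
    rw [MonoidHom.range_comp, Subgroup.range_subtype, MonoidHom.map_closure, ← Set.range_comp]
    rfl
  exact ⟨((MulEquiv.subgroupCongr rf.symm).trans (MonoidHom.ofInjective hf).symm).trans
    ((MonoidHom.ofInjective hg).trans (MulEquiv.subgroupCongr rg))⟩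

/-- The automaton of the data. -/
noncomputable def au (D : Data) : Auto D.n 18 where
  nxt q x := ⟨D.N q x, D.N_lt q.2 x⟩
  out q := D.oP q

theorem au_code (D : Data) : (au D).code = (D.n, 18, D.T) := by
  unfold Auto.code
  congr 2
  apply List.ext_getElem
  · simp [Data.T, table, Data.n]
  · intro q h1 h2
    have hq : q < D.n := by simpa using h1
    rw [List.getElem_ofFn]
    apply List.ext_getElem
    · simp [Data.T, table]
    · intro x h3 h4
      have hx : x < 18 := by simpa using h3
      rw [List.getElem_ofFn]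
      have h := D.T_getD hq hx
      rw [List.getD_eq_getElem _ _ h2, List.getD_eq_getElem _ _ h4] at h
      rw [h]
      simp only [au, Prod.mk.injEq]
      refine ⟨trivial, ?_⟩
      exact D.oP_apply hq ⟨x, hx⟩

theorem stt_shift (D : Data) (q : ℕ) (η : R) (i : ℕ) :
    D.stt q η (i + 1) = D.stt (D.N q (η 0)) (fun j => η (j + 1)) i := by
  induction i with
  | zero => rfl
  | succ i ih =>
    rw [Data.stt, ih]
    rfl

theorem comp_state (D : Data) (q : Fin D.n) : ((au D).perm q, D.sP q) ∈ Comp := by
  intro η m
  change (au D).act q (pre η m) = pre (D.sP q η) m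
  induction m generalizing q η with
  | zero => rfl
  | succ m ih =>
    rw [pre_succ, pre_succ, Auto.act, ih]
    congr 1
    congr 1
    funext j
    change D.oP (D.stt ((au D).nxt q (η 0)) (fun j => η (j + 1)) j) (η (j + 1)) =
      D.oP (D.stt q η (j + 1)) (η (j + 1))
    rw [stt_shift]
    rfl

theorem cl_eq (D : Data) : Cl D = Subgroup.closure (Set.range fun q : Fin D.n => D.sP q) := by
  unfold Cl
  congr 1
  ext σ
  constructor
  · rintro ⟨q, hq, h⟩
    refine ⟨⟨q, hq⟩, ?_⟩
    ext η : 1
    funext i
    apply Fin.ext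
    rw [h η i]
    exact D.is_sP hq η i
  · rintro ⟨q, rfl⟩
    exact ⟨q, q.2, D.is_sP q.2⟩

/-- The group of the automaton is isomorphic to the group acting on rays. -/
theorem au_group (D : Data) : Nonempty ((au D).group ≃* Cl D) := by
  rw [cl_eq]
  exact nonempty_equiv (au D).perm (fun q : Fin D.n => D.sP q) (comp_state D)

end Pool.Agent.Q221.AutIso
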